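import Pool.Agent.Y742.CN.Stm

set_option autoImplicit false
set_option linter.all false

/-! CN-GEN (helper742): null forms are generated by forms on the space of leaves (helper427) -/

namespace Pool.Agent.Y427.CN

open Pool.Agent.Y742.CN

/-- a derivation kills algebraic elements (characteristic zero) -/
theorem der_alg {Ω K : Type} [Field Ω] [CharZero Ω] [Field K] [Algebra Ω K]
    (D : Derivation Ω K K) {t : K} (ht : IsAlgebraic Ω t) : D t = 0 := by
  have hi : IsIntegral Ω t := ht.isIntegral
  have h1 := (minpoly.irreducible hi).separable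
  have h2 : Polynomial.aeval t (minpoly Ω t).derivative ≠ 0 :=
    h1.aeval_derivative_ne_zero (minpoly.aeval Ω t)
  have h3 := D.map_aeval (minpoly Ω t) t
  rw [minpoly.aeval, map_zero, smul_eq_mul] at h3
  rcases mul_eq_zero.1 h3.symm with h | h
  · exact absurd h h2
  · exact h

/-- a transcendence basis adapted to the leaves -/
theorem exists_basis {Ω K : Type} [Field Ω] [CharZero Ω] [Field K] [Algebra Ω K]
    {n : ℕ} {x : Fin n → K} (hx : IsTranscendenceBasis Ω x) (D : Derivation Ω K K)
    (hD : AlgLeaves D) : ∃ (t : K) (S : Set K), t ∈ S ∧ D t ≠ 0 ∧ S.Finite ∧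
      IsTranscendenceBasis Ω ((↑) : S → K) ∧ ∀ a ∈ S, a ≠ t → D a = 0 := by
  obtain ⟨L, t, hL, ht, hb⟩ := hD
  have htr : Transcendental Ω t := fun h => ht (der_alg D h)
  have hind : AlgebraicIndepOn Ω id ({t} : Set K) := by
    rw [AlgebraicIndepOn, algebraicIndependent_singleton_iff (⟨t, rfl⟩ : ({t} : Set K))]
    exact htr
  have halg : Algebra.IsAlgebraic (Algebra.adjoin Ω ((L : Set K) ∪ {t})) K := by
    constructor
    intro b
    rw [← IntermediateField.isAlgebraic_adjoin_iff, ← IntermediateField.restrictScalars_adjoin]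
    exact hb b
  obtain ⟨S, hS1, hS2, hS3⟩ := exists_isTranscendenceBasis_between ({t} : Set K)
    ((L : Set K) ∪ {t}) Set.subset_union_right hind
  refine ⟨t, S, hS1 rfl, ht, ?_, hS3, ?_⟩
  · have h1 := hx.cardinalMk_eq hS3
    rw [Cardinal.mk_fin] at h1
    have : Cardinal.mk S < Cardinal.aleph0 := by rw [← h1]; exact Cardinal.natCast_lt_aleph0
    exact Cardinal.lt_aleph0_iff_set_finite.mp this
  · intro a ha hat
    rcases hS2 ha with h | h
    · exact hL a h
    · exact absurd h hat

/-- the forms in the `y j` which vanish on `g` -/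
def UU {Ω K : Type} [Field Ω] [Field K] [Algebra Ω K] (g : Submodule K (Derivation Ω K K))
    {m : ℕ} (y : Fin m → K) : Submodule K (Fin m →₀ K) where
  carrier := {w | ∀ B ∈ g, ∑ j, w j * B (y j) = 0}
  zero_mem' := by
    intro B _
    simp
  add_mem' := by
    intro a b ha hb B hB
    have h1 := ha B hB
    have h2 := hb B hB
    simp only [Finsupp.add_apply, add_mul, Finset.sum_add_distrib]
    rw [h1, h2, add_zero]
  smul_mem' := by
    intro c a ha B hB
    have h1 := ha B hB
    simp only [Finsupp.smul_apply, smul_eq_mul, mul_assoc]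
    rw [← Finset.mul_sum, h1, mul_zero]

theorem UU_stable {Ω K : Type} [Field Ω] [Field K] [Algebra Ω K]
    {g : Submodule K (Derivation Ω K K)} (hg : ∀ A ∈ g, ∀ B ∈ g, ⁅A, B⁆ ∈ g)
    {D : Derivation Ω K K} (hD : D ∈ g) {m : ℕ} {y : Fin m → K} (hy : ∀ j, D (y j) = 0) :
    ∀ u ∈ UU g y, u.mapRange D (map_zero D) ∈ UU g y := by
  intro u hu B hB
  have h1 : ∑ j, u j * B (y j) = 0 := hu B hB
  have h2 : ∑ j, u j * ⁅D, B⁆ (y j) = 0 := hu _ (hg D hD B hB)
  have h3 : ∀ j, ⁅D, B⁆ (y j) = D (B (y j)) := by
    intro j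
    rw [Derivation.commutator_apply, hy j, map_zero, sub_zero]
  simp only [h3] at h2
  have h4 : D (∑ j, u j * B (y j)) = 0 := by rw [h1, map_zero]
  rw [map_sum] at h4
  simp only [Derivation.leibniz, smul_eq_mul, Finset.sum_add_distrib] at h4
  rw [h2, zero_add] at h4
  change ∑ j, (u.mapRange D (map_zero D)) j * B (y j) = 0
  simp only [Finsupp.mapRange_apply]
  rw [← h4]
  exact Finset.sum_congr rfl fun j _ => mul_comm _ _

theorem sGenerate (h1 : SDescent) (h3 : SCoord) : Pool.Agent.Y742.CN.SGenerate := by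
  classical
  intro Ω K _ _ _ _ n x hx g hg D hDg hD q f h hf
  obtain ⟨t, S, htS, hDt, hfin, hS, hS0⟩ := exists_basis hx D hD
  haveI : Fintype S := hfin.fintype
  obtain ⟨d, hd1, hd2⟩ := h3 Ω K S (fun i => (i : K)) hS
  set t' : S := ⟨t, htS⟩ with ht'
  -- the other elements of the basis
  set T := {i : S // i ≠ t'} with hT
  set m := Fintype.card T with hm
  set ι : Fin m ≃ T := (Fintype.equivFin T).symm with hι
  set y : Fin m → K := fun j => ((ι j).1 : K) with hy
  have hDy : ∀ j, D (y j) = 0 := by
    intro j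
    apply hS0 _ (ι j).1.2
    intro h
    exact (ι j).2 (Subtype.ext h)
  -- the sum over the basis
  have hsum : ∀ (M : Type) [Field M] (F : S → M), ∑ i, F i = F t' + ∑ j : Fin m, F (ι j).1 := by
    intro M _ F
    rw [← Finset.add_sum_erase Finset.univ F (Finset.mem_univ t')]
    congr 1
    rw [Equiv.sum_comp ι (fun i : T => F i.1)]
    rw [Finset.sum_subtype (p := fun i : S => i ≠ t') (Finset.univ.erase t')
      (fun i => by simp) F]
  set w : S → K := fun i => ∑ l, f l * d i (h l) with hw
  have hform : ∀ (M : Type) [Field M] (e : K →+* M) (δ : K → M), DerAlong Ω e δ →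
      ∑ l, e (f l) * δ (h l) = ∑ i : S, e (w i) * δ (i : K) := by
    intro M _ e δ hδ
    have e1 : ∀ l, e (f l) * δ (h l) = ∑ i : S, e (f l * d i (h l)) * δ (i : K) := by
      intro l
      rw [hd2 M e δ hδ (h l), Finset.mul_sum]
      apply Finset.sum_congr rfl
      intro i _
      rw [map_mul, mul_assoc]
    simp only [e1]
    rw [Finset.sum_comm]
    apply Finset.sum_congr rfl
    intro i _
    rw [← Finset.sum_mul, hw, map_sum]
  have hder : ∀ B : Derivation Ω K K, DerAlong Ω (RingHom.id K) (fun a => B a) := by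
    intro B
    refine ⟨fun a b => map_add B a b, ?_, ?_⟩
    · intro a b
      rw [Derivation.leibniz]
      rfl
    · intro c
      exact B.map_algebraMap c
  have hwt : w t' = 0 := by
    have h4 := hform K (RingHom.id K) (fun a => D a) (hder D)
    rw [hsum K] at h4
    have h5 : ∑ l, (RingHom.id K) (f l) * D (h l) = 0 := hf D hDg
    have h6 : ∑ j : Fin m, (RingHom.id K) (w (ι j).1) * D (((ι j).1 : S) : K) = 0 := by
      apply Finset.sum_eq_zero
      intro j _
      have := hDy j
      simp only [hy] at this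
      rw [this, mul_zero]
    rw [h5, h6, add_zero] at h4
    have h7 : w t' * D t = 0 := h4.symm
    exact (mul_eq_zero.1 h7).resolve_right hDt
  -- the element of the stable subspace
  set W : Fin m →₀ K := Finsupp.equivFunOnFinite.symm (fun j => w (ι j).1) with hW
  have hWj : ∀ j, W j = w (ι j).1 := fun j => rfl
  have hform' : ∀ (M : Type) [Field M] (e : K →+* M) (δ : K → M), DerAlong Ω e δ →
      ∑ l, e (f l) * δ (h l) = ∑ j, e (W j) * δ (y j) := by
    intro M _ e δ hδ
    rw [hform M e δ hδ, hsum M, hwt, map_zero, zero_mul, zero_add]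
    rfl
  have hWU : W ∈ UU g y := by
    intro B hB
    have h4 := hform' K (RingHom.id K) (fun a => B a) (hder B)
    have h5 : ∑ l, (RingHom.id K) (f l) * B (h l) = 0 := hf B hB
    rw [h5] at h4
    exact h4.symm
  have hmem := h1 Ω K (Fin m) Unit (fun _ => D) (UU g y)
    (fun _ u hu => UU_stable hg hDg hDy u hu) W hWU
  obtain ⟨r, c, G, hG⟩ := Submodule.mem_span_set'.1 hmem
  refine ⟨r, m, c, fun l j => (G l).1 j, y, hDy, fun l j => (G l).2.2 () j, fun l => ?_, ?_⟩
  · intro B hB
    exact (G l).2.1 B hB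
  · intro M _ e δ hδ
    rw [hform' M e δ hδ]
    have e1 : ∀ j, W j = ∑ l, c l * (G l).1 j := by
      intro j
      rw [← hG, Finsupp.finset_sum_apply]
      rfl
    simp only [e1, map_sum, map_mul, Finset.sum_mul, Finset.mul_sum]
    rw [Finset.sum_comm]
    apply Finset.sum_congr rfl
    intro l _
    apply Finset.sum_congr rfl
    intro j _
    rw [mul_assoc]

end Pool.Agent.Y427.CN
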